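import Pool.Agent.H49.S8.CaseA
import Pool.Agent.H86.S8.Stm

set_option autoImplicit false

/-!
# Words of length at most eight: row R1
-/

namespace Pool.Agent.H49.S8

/-- R1. -/
theorem sQ3 : Pool.Agent.H86.S8.SQ3 := by
  intro α _ _ a q hc ha hda ha0 hap hqp hq0 hdq hone hN
  exact quad2 Pool.Agent.H89.SW.slin a q hc ha hda ha0 hap hqp hq0 hdq hone hN

end Pool.Agent.H49.S8
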