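import Pool.Agent.H49.S8.Fin
import Pool.Agent.H49.S8.R1
import Pool.Agent.H49.SW.All
import Pool.Agent.H89.S8.Half
import Pool.Agent.H72.S8.Both
import Pool.Agent.H35.S8.Fin
import Pool.Agent.H86.S8.Prime

set_option autoImplicit false

/-!
# The dichotomy for finite maximal codes, words of length at most eight
-/

namespace Pool.Agent.H49.S8

open Finset MvPolynomial
open Pool.Agent.H35
open Pool.Agent.H35.FC (IsCode IsPrefixCode gf)
open Pool.Agent.H72.OF (os)
open Pool.Agent.H49.SW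
open Pool.Agent.H86.S8

theorem short8 (hLink : SPrime → SLink) {α : Type} [Fintype α] [DecidableEq α]
    (C : Finset (List α))
    (hC : IsCode (C : Set (List α)))
    (hmax : ∀ D : Set (List α), IsCode D → (C : Set (List α)) ⊆ D → D = C) :
    (∃ D : Finset (List α), IsPrefixCode (D : Set (List α)) ∧
      ∃ F : List α → List α, Set.BijOn F C D ∧ ∀ w ∈ C, (F w).Perm w) ∨
    ∃ F G : MvPolynomial α ℤ, F ≠ 0 ∧ G ≠ 0 ∧ 1 - gf C = os α * (F * G) ∧
      3 ≤ F.totalDegree ∧ 3 ≤ G.totalDegree ∧ 8 ≤ F.totalDegree + G.totalDegree :=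
  shortG8 H75.SW.sRev H76.SW.sgen (H25.SW.degA H35.SW.sClimb) H62.SW.sDrop H89.SW.slin
    (H74.SW.quad H89.SW.slin) H57.SW.two (H89.S8.srev8 H75.SW.sRev)
    (H89.S8.smain H75.SW.sRev H76.SW.sgen (H25.SW.degA H35.SW.sClimb)
      (H89.S8.shalf H62.SW.sDrop H89.SW.slin sQ3) H72.S8.sBoth)
    (hLink (primeP H35.S8.sIdeal)) H86.OG.tilP H35.FS.maxP H35.FC.gfP H35.FC.treeP C hC hmax

end Pool.Agent.H49.S8
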