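import Pool.Agent.H74.SW.R7
import Pool.Agent.H89.SW.R6

set_option autoImplicit false

/-!
# Words of length at most eight: the first case, one polynomial of degree two
-/

namespace Pool.Agent.H49.S8

open Finset MvPolynomial
open Pool.Agent.H72.OF (os)
open Pool.Agent.H49.SW (evt SLin)

/-- The top coefficient of a polynomial which is nonnegative at the positive integers. -/
theorem top_nonneg (P : Polynomial ℤ) (n : ℕ) (hd : P.natDegree ≤ n)
    (h : ∀ z : ℕ, 1 ≤ z → 0 ≤ P.eval (z : ℤ)) : 0 ≤ P.coeff n := by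
  by_contra hneg
  push Not at hneg
  obtain ⟨K, hK⟩ : ∃ K : ℤ, K = ∑ i ∈ range n, |P.coeff i| := ⟨_, rfl⟩
  have hK0 : 0 ≤ K := by
    rw [hK]
    exact Finset.sum_nonneg fun i _ => abs_nonneg _
  obtain ⟨z, hz⟩ : ∃ z : ℕ, (z : ℤ) = K + 1 := ⟨(K + 1).toNat, Int.toNat_of_nonneg (by omega)⟩
  have hz1 : (1 : ℤ) ≤ z := by omega
  have h1 := h z (by exact_mod_cast hz1)
  rw [Polynomial.eval_eq_sum_range' (Nat.lt_succ_of_le hd), Finset.sum_range_succ] at h1
  rcases n with _ | n
  · rw [Finset.sum_range_zero, zero_add, pow_zero, mul_one] at h1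
    omega
  · have h2 : ∑ i ∈ range (n + 1), P.coeff i * (z : ℤ) ^ i ≤ K * (z : ℤ) ^ n := by
      rw [hK, Finset.sum_mul]
      refine Finset.sum_le_sum fun i hi => ?_
      have hi' : i ≤ n := by
        have := Finset.mem_range.1 hi
        omega
      have h3 : (z : ℤ) ^ i ≤ (z : ℤ) ^ n := pow_le_pow_right₀ hz1 hi'
      have h4 : (0 : ℤ) ≤ (z : ℤ) ^ i := by positivity
      calc P.coeff i * (z : ℤ) ^ i ≤ |P.coeff i| * (z : ℤ) ^ i :=
            mul_le_mul_of_nonneg_right (le_abs_self _) h4
        _ ≤ |P.coeff i| * (z : ℤ) ^ n := mul_le_mul_of_nonneg_left h3 (abs_nonneg _)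
    have h5 : P.coeff (n + 1) * (z : ℤ) ^ (n + 1) ≤ -((z : ℤ) ^ (n + 1)) := by
      have h6 : P.coeff (n + 1) ≤ -1 := by omega
      have h7 : (0 : ℤ) ≤ (z : ℤ) ^ (n + 1) := by positivity
      calc P.coeff (n + 1) * (z : ℤ) ^ (n + 1) ≤ (-1) * (z : ℤ) ^ (n + 1) :=
            mul_le_mul_of_nonneg_right h6 h7
        _ = -((z : ℤ) ^ (n + 1)) := by ring
    have h8 : (0 : ℤ) < (z : ℤ) ^ n := by positivity
    have h9 : K * (z : ℤ) ^ n - (z : ℤ) ^ (n + 1) = -((z : ℤ) ^ n) := by
      rw [pow_succ, hz]
      ring
    omega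

/-- Restriction to a curve. -/
theorem curve {α : Type} [Fintype α] (q : MvPolynomial α ℤ)
    (hq : ∀ t : α → ℕ, (∀ x, 1 ≤ t x) → 0 ≤ evt t q) (w : α → ℕ) (n : ℕ)
    (hn : ∀ m ∈ q.support, ∑ x : α, w x * m x ≤ n) :
    0 ≤ ∑ m ∈ q.support, if ∑ x : α, w x * m x = n then coeff m q else 0 := by
  obtain ⟨P, hP⟩ : ∃ P : Polynomial ℤ, P = ∑ m ∈ q.support,
      Polynomial.monomial (∑ x : α, w x * m x) (coeff m q) := ⟨_, rfl⟩
  have h1 : P.coeff n = ∑ m ∈ q.support, if ∑ x : α, w x * m x = n then coeff m q else 0 := by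
    rw [hP, Polynomial.finsetSum_coeff]
    refine Finset.sum_congr rfl fun m _ => ?_
    rw [Polynomial.coeff_monomial]
  rw [← h1]
  refine top_nonneg P n ?_ fun z hz => ?_
  · rw [hP]
    refine Polynomial.natDegree_sum_le_of_forall_le _ _ fun m hm => ?_
    exact (Polynomial.natDegree_monomial_le _).trans (hn m hm)
  · have h2 : P.eval (z : ℤ) = evt (fun x => z ^ w x) q := by
      rw [hP, Polynomial.eval_finsetSum]
      unfold evt
      rw [eval_eq']
      refine Finset.sum_congr rfl fun m _ => ?_
      rw [Polynomial.eval_monomial, ← Finset.prod_pow_eq_pow_sum]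
      congr 1
      refine Finset.prod_congr rfl fun x _ => ?_
      push_cast
      rw [pow_mul]
    rw [h2]
    exact hq _ fun x => Nat.one_le_pow _ _ hz

theorem deg_two {α : Type} [Fintype α] {m : α →₀ ℕ} (h : m.degree = 2) :
    ∑ x : α, m x = 2 := by
  rw [← h, Finsupp.degree_eq_sum]

/-- The coefficient of a square. -/
theorem diag {α : Type} [Fintype α] [DecidableEq α] (q : MvPolynomial α ℤ)
    (hh : q.IsHomogeneous 2)
    (hq : ∀ t : α → ℕ, (∀ x, 1 ≤ t x) → 0 ≤ evt t q) (j : α) :
    0 ≤ coeff (Finsupp.single j 2) q := by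
  have hdeg : ∀ m ∈ q.support, ∑ x : α, m x = 2 := fun m hm => by
    refine deg_two ?_
    by_contra h
    exact (mem_support_iff.1 hm) (hh.coeff_eq_zero h)
  have hw : ∀ m : α →₀ ℕ, ∑ x : α, (if x = j then 1 else 0) * m x = m j := fun m => by
    rw [Finset.sum_eq_single j]
    · simp
    · intro x _ hx
      simp [hx]
    · intro h
      exact absurd (Finset.mem_univ j) h
  have h1 := curve q hq (fun x => if x = j then 1 else 0) 2 fun m hm => by
    rw [hw, ← hdeg m hm]
    exact Finset.single_le_sum (f := fun x => m x) (fun x _ => Nat.zero_le _) (Finset.mem_univ j)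
  simp only [hw] at h1
  have h2 : ∑ m ∈ q.support, (if m j = 2 then coeff m q else 0) =
      coeff (Finsupp.single j 2) q := by
    rw [Finset.sum_eq_single (Finsupp.single j 2)]
    · simp
    · intro m hm hne
      rw [if_neg]
      intro hj
      apply hne
      ext x
      by_cases hx : x = j
      · subst hx
        simpa using hj
      · rw [Finsupp.single_eq_of_ne hx]
        have h3 := hdeg m hm
        rw [← Finset.add_sum_erase _ _ (Finset.mem_univ j)] at h3
        have h4 : m x ≤ ∑ y ∈ univ.erase j, m y :=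
          Finset.single_le_sum (f := fun x => m x) (fun x _ => Nat.zero_le _)
            (Finset.mem_erase.2 ⟨hx, Finset.mem_univ x⟩)
        omega
    · intro h
      rw [notMem_support_iff] at h
      simp [h]
  rw [← h2]
  exact h1

/-- The coefficient of a mixed monomial. -/
theorem cross {α : Type} [Fintype α] [DecidableEq α] (q : MvPolynomial α ℤ)
    (hh : q.IsHomogeneous 2)
    (hq : ∀ t : α → ℕ, (∀ x, 1 ≤ t x) → 0 ≤ evt t q) (j k : α) (hjk : j ≠ k)
    (h0 : coeff (Finsupp.single j 2) q = 0) :
    0 ≤ coeff (Finsupp.single j 1 + Finsupp.single k 1) q := by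
  have hdeg : ∀ m ∈ q.support, ∑ x : α, m x = 2 := fun m hm => by
    refine deg_two ?_
    by_contra h
    exact (mem_support_iff.1 hm) (hh.coeff_eq_zero h)
  have hsum : ∀ m : α →₀ ℕ, ∑ x : α, m x = m j + (m k + ∑ x ∈ (univ.erase j).erase k, m x) :=
    fun m => by
      rw [← Finset.add_sum_erase _ _ (Finset.mem_univ j), ← Finset.add_sum_erase (univ.erase j) _
        (Finset.mem_erase.2 ⟨hjk.symm, Finset.mem_univ k⟩)]
  have hw : ∀ m : α →₀ ℕ, ∑ x : α, (if x = j then 2 else if x = k then 1 else 0) * m x =
      2 * m j + m k := fun m => by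
    rw [← Finset.add_sum_erase _ _ (Finset.mem_univ j), ← Finset.add_sum_erase (univ.erase j) _
        (Finset.mem_erase.2 ⟨hjk.symm, Finset.mem_univ k⟩)]
    rw [Finset.sum_eq_zero (s := (univ.erase j).erase k), if_pos rfl, if_neg hjk.symm, if_pos rfl]
    · ring
    · intro x hx
      have h1 := Finset.mem_erase.1 hx
      have h2 := Finset.mem_erase.1 h1.2
      rw [if_neg h2.1, if_neg h1.1, zero_mul]
  have hj2 : ∀ m ∈ q.support, m j ≤ 1 := by
    intro m hm
    by_contra hcon
    push Not at hcon
    have h3 := hdeg m hm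
    rw [hsum] at h3
    have h4 : m = Finsupp.single j 2 := by
      ext x
      by_cases hx : x = j
      · subst hx
        rw [Finsupp.single_eq_same]
        omega
      · rw [Finsupp.single_eq_of_ne hx]
        by_cases hx' : x = k
        · subst hx'
          omega
        · have h5 : m x ≤ ∑ y ∈ (univ.erase j).erase k, m y :=
            Finset.single_le_sum (f := fun x => m x) (fun x _ => Nat.zero_le _)
              (Finset.mem_erase.2 ⟨hx', Finset.mem_erase.2 ⟨hx, Finset.mem_univ x⟩⟩)
          omega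
    rw [h4] at hm
    exact (mem_support_iff.1 hm) h0
  have h1 := curve q hq (fun x => if x = j then 2 else if x = k then 1 else 0) 3 fun m hm => by
    rw [hw]
    have h3 := hdeg m hm
    rw [hsum] at h3
    have := hj2 m hm
    omega
  simp only [hw] at h1
  have h2 : ∑ m ∈ q.support, (if 2 * m j + m k = 3 then coeff m q else 0) =
      coeff (Finsupp.single j 1 + Finsupp.single k 1) q := by
    rw [Finset.sum_eq_single (Finsupp.single j 1 + Finsupp.single k 1)]
    · rw [if_pos]
      simp [Finsupp.single_eq_of_ne hjk, Finsupp.single_eq_of_ne hjk.symm]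
    · intro m hm hne
      rw [if_neg]
      intro hj
      apply hne
      have h3 := hdeg m hm
      rw [hsum] at h3
      have h4 := hj2 m hm
      ext x
      rw [Finsupp.add_apply]
      by_cases hx : x = j
      · subst hx
        rw [Finsupp.single_eq_same, Finsupp.single_eq_of_ne hjk]
        omega
      · by_cases hx' : x = k
        · subst hx'
          rw [Finsupp.single_eq_same, Finsupp.single_eq_of_ne hx]
          omega
        · rw [Finsupp.single_eq_of_ne hx, Finsupp.single_eq_of_ne hx']
          have h5 : m x ≤ ∑ y ∈ (univ.erase j).erase k, m y :=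
            Finset.single_le_sum (f := fun x => m x) (fun x _ => Nat.zero_le _)
              (Finset.mem_erase.2 ⟨hx', Finset.mem_erase.2 ⟨hx, Finset.mem_univ x⟩⟩)
          omega
    · intro h
      rw [notMem_support_iff] at h
      simp [h]
  rw [← h2]
  exact h1

/-- A monomial of degree two. -/
theorem exists_pair {α : Type} [Fintype α] [DecidableEq α] {m : α →₀ ℕ} (h : m.degree = 2) :
    ∃ j k : α, m = Finsupp.single j 1 + Finsupp.single k 1 := by
  have hne : m ≠ 0 := by
    rintro rfl
    simp at h
  obtain ⟨j, hj⟩ := Finsupp.support_nonempty_iff.2 hne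
  have hj1 : 1 ≤ m j := Nat.one_le_iff_ne_zero.2 (Finsupp.mem_support_iff.1 hj)
  obtain ⟨m', hm'⟩ : ∃ m', m = Finsupp.single j 1 + m' :=
    ⟨m - Finsupp.single j 1, (add_tsub_cancel_of_le (Finsupp.single_le_iff.2 hj1)).symm⟩
  have h1 : m'.degree = 1 := by
    rw [hm', map_add, Finsupp.degree_single] at h
    omega
  have hne' : m' ≠ 0 := by
    rintro rfl
    simp at h1
  obtain ⟨k, hk⟩ := Finsupp.support_nonempty_iff.2 hne'
  have hk1 : 1 ≤ m' k := Nat.one_le_iff_ne_zero.2 (Finsupp.mem_support_iff.1 hk)
  obtain ⟨m'', hm''⟩ : ∃ m'', m' = Finsupp.single k 1 + m'' :=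
    ⟨m' - Finsupp.single k 1, (add_tsub_cancel_of_le (Finsupp.single_le_iff.2 hk1)).symm⟩
  have h2 : m''.degree = 0 := by
    rw [hm'', map_add, Finsupp.degree_single] at h1
    omega
  have h3 : m'' = 0 := (Finsupp.degree_eq_zero_iff m'').1 h2
  exact ⟨j, k, by rw [hm', hm'', h3, add_zero]⟩

/-- A factor whose letters are all bad kills the coefficients of good monomials. -/
theorem kill {α : Type} [DecidableEq α] (p r : MvPolynomial α ℤ) (bad : α → Prop)
    (hp : ∀ u, coeff u p ≠ 0 → ∃ x ∈ u.support, bad x) (m : α →₀ ℕ)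
    (hm : ∀ x ∈ m.support, ¬ bad x) : coeff m (p * r) = 0 := by
  rw [coeff_mul]
  refine Finset.sum_eq_zero fun uv huv => ?_
  by_cases h : coeff uv.1 p = 0
  · rw [h, zero_mul]
  · exfalso
    obtain ⟨x, hx, hb⟩ := hp _ h
    have h1 := Finset.HasAntidiagonal.mem_antidiagonal.1 huv
    refine hm x ?_ hb
    rw [Finsupp.mem_support_iff, ← h1, Finsupp.add_apply]
    have := Finsupp.mem_support_iff.1 hx
    omega

/-- One product below the coefficient. -/
theorem le_coeff_mul {α : Type} [DecidableEq α] (p r : MvPolynomial α ℤ)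
    (hp : ∀ m, 0 ≤ coeff m p) (hr : ∀ m, 0 ≤ coeff m r) (u v : α →₀ ℕ) :
    coeff u p * coeff v r ≤ coeff (u + v) (p * r) := by
  rw [coeff_mul]
  exact Finset.single_le_sum (f := fun x : (α →₀ ℕ) × (α →₀ ℕ) => coeff x.1 p * coeff x.2 r)
    (fun x _ => mul_nonneg (hp _) (hr _)) (Finset.HasAntidiagonal.mem_antidiagonal.2 rfl :
      (u, v) ∈ Finset.HasAntidiagonal.antidiagonal (u + v))

/-- The quadratic case with a quadratic partner. -/
theorem quad2 (h6 : SLin) {α : Type} [Fintype α] [DecidableEq α] (a p : MvPolynomial α ℤ)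
    (hc : 2 ≤ Fintype.card α) (ha : a ≠ 0) (hda : a.totalDegree ≤ 2) (ha0 : constantCoeff a = 0)
    (hap : ∀ m, 0 ≤ coeff m a)
    (hpp : ∀ t : α → ℕ, (∀ x, 1 ≤ t x) → 0 ≤ evt t p) (hp0 : constantCoeff p = 0)
    (hdp : p.totalDegree ≤ 2)
    (hone : ∀ x, coeff (Finsupp.single x 1) a + coeff (Finsupp.single x 1) p ≤ 1)
    (hN : ∀ m, 0 ≤ coeff m (a + p - os α * (a * p))) : ∀ m, 0 ≤ coeff m p := by
  obtain ⟨a1, ha1⟩ : ∃ a1, a1 = homogeneousComponent 1 a := ⟨_, rfl⟩
  obtain ⟨a2, ha2⟩ : ∃ a2, a2 = homogeneousComponent 2 a := ⟨_, rfl⟩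
  obtain ⟨l, hl⟩ : ∃ l, l = homogeneousComponent 1 p := ⟨_, rfl⟩
  obtain ⟨q, hq⟩ : ∃ q, q = homogeneousComponent 2 p := ⟨_, rfl⟩
  have hA1 : a1.IsHomogeneous 1 := by rw [ha1]; exact homogeneousComponent_isHomogeneous 1 a
  have hA2 : a2.IsHomogeneous 2 := by rw [ha2]; exact homogeneousComponent_isHomogeneous 2 a
  have hL : l.IsHomogeneous 1 := by rw [hl]; exact homogeneousComponent_isHomogeneous 1 p
  have hQ : q.IsHomogeneous 2 := by rw [hq]; exact homogeneousComponent_isHomogeneous 2 p
  have haa : a = a1 + a2 := by rw [ha1, ha2]; exact H74.SW.dec a ha0 hda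
  have hpq : p = l + q := by rw [hl, hq]; exact H74.SW.dec p hp0 hdp
  have ha1p : ∀ m, 0 ≤ coeff m a1 := fun m => by
    rw [ha1, coeff_homogeneousComponent]
    split_ifs
    · exact hap m
    · exact le_rfl
  have ha2p : ∀ m, 0 ≤ coeff m a2 := fun m => by
    rw [ha2, coeff_homogeneousComponent]
    split_ifs
    · exact hap m
    · exact le_rfl
  have hS : (1 - os α : MvPolynomial α ℤ).IsHomogeneous 1 := H74.SW.s_hom
  have hP1 : (a1 + l).IsHomogeneous 1 := hA1.add hL
  have hP2 : (a2 + q - a1 * l).IsHomogeneous 2 := (hA2.add hQ).sub (hA1.mul hL)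
  have hmix : (a1 * q + a2 * l).IsHomogeneous 3 := (hA1.mul hQ).add (hA2.mul hL)
  have hP3 : ((1 - os α) * (a1 * l) - (a1 * q + a2 * l)).IsHomogeneous 3 :=
    (hS.mul (hA1.mul hL)).sub hmix
  have hP4 : ((1 - os α) * (a1 * q + a2 * l) - a2 * q).IsHomogeneous 4 :=
    (hS.mul hmix).sub (hA2.mul hQ)
  have hP5 : ((1 - os α) * (a2 * q)).IsHomogeneous 5 := hS.mul (hA2.mul hQ)
  have hsum : a + p - os α * (a * p) = (a1 + l) + (a2 + q - a1 * l)
      + ((1 - os α) * (a1 * l) - (a1 * q + a2 * l))
      + ((1 - os α) * (a1 * q + a2 * l) - a2 * q) + (1 - os α) * (a2 * q) := by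
    rw [haa, hpq]
    ring
  rw [hsum] at hN
  have h2 : ∀ m, 0 ≤ coeff m (a2 + q - a1 * l) := by
    intro m
    by_cases hm : m.degree = 2
    · have h := hN m
      rw [coeff_add, coeff_add, coeff_add, coeff_add, hP1.coeff_eq_zero (by omega),
        hP3.coeff_eq_zero (by omega), hP4.coeff_eq_zero (by omega),
        hP5.coeff_eq_zero (by omega)] at h
      linarith
    · rw [hP2.coeff_eq_zero hm]
  have h3 : ∀ m, 0 ≤ coeff m ((1 - os α) * (a1 * l) - (a1 * q + a2 * l)) := by
    intro m
    by_cases hm : m.degree = 3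
    · have h := hN m
      rw [coeff_add, coeff_add, coeff_add, coeff_add, hP1.coeff_eq_zero (by omega),
        hP2.coeff_eq_zero (by omega), hP4.coeff_eq_zero (by omega),
        hP5.coeff_eq_zero (by omega)] at h
      linarith
    · rw [hP3.coeff_eq_zero hm]
  have h4 : ∀ m, 0 ≤ coeff m ((1 - os α) * (a1 * q + a2 * l) - a2 * q) := by
    intro m
    by_cases hm : m.degree = 4
    · have h := hN m
      rw [coeff_add, coeff_add, coeff_add, coeff_add, hP1.coeff_eq_zero (by omega),
        hP2.coeff_eq_zero (by omega), hP3.coeff_eq_zero (by omega),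
        hP5.coeff_eq_zero (by omega)] at h
      linarith
    · rw [hP4.coeff_eq_zero hm]
  -- values
  have hQt : ∀ t : α → ℕ, (∀ x, 1 ≤ t x) → 0 ≤ evt t q := by
    intro t ht
    by_contra hneg
    push Not at hneg
    obtain ⟨z, hz⟩ : ∃ z : ℕ, (z : ℤ) = max (evt t l + 1) 1 :=
      ⟨(max (evt t l + 1) 1).toNat, Int.toNat_of_nonneg (le_trans zero_le_one (le_max_right _ _))⟩
    have hz1 : (1 : ℤ) ≤ z := by rw [hz]; exact le_max_right _ _
    have hz2 : evt t l + 1 ≤ (z : ℤ) := by rw [hz]; exact le_max_left _ _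
    have h := hpp (fun x => z * t x) (fun x => by
      have h1 : 1 ≤ z := by exact_mod_cast hz1
      exact Nat.mul_le_mul h1 (ht x))
    have h' : evt (fun x => z * t x) p = (z : ℤ) ^ 1 * evt t l + (z : ℤ) ^ 2 * evt t q := by
      rw [← H74.SW.evt_smul l 1 hL t z, ← H74.SW.evt_smul q 2 hQ t z, hpq]
      unfold evt
      rw [map_add]
    rw [h'] at h
    have h4 : evt t q ≤ -1 := by omega
    nlinarith [mul_nonneg (by linarith : (0 : ℤ) ≤ z) (by linarith : (0 : ℤ) ≤ z - evt t l - 1),
      mul_nonneg (mul_nonneg (by linarith : (0 : ℤ) ≤ z) (by linarith : (0 : ℤ) ≤ z))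
        (by linarith : (0 : ℤ) ≤ -1 - evt t q)]
  have key : ∀ t : α → ℕ, (∀ x, 1 ≤ t x) → 0 ≤ evt t l ∧
      evt t q ≤ (∑ x : α, (t x : ℤ)) * evt t l := by
    intro t ht
    have e0 : 0 < evt t a := H74.SW.evt_pos a hap ha t ht
    have e0' : evt t a = evt t a1 + evt t a2 := by
      rw [haa]
      unfold evt
      rw [map_add]
    have e1 : 0 ≤ evt t a1 := H74.SW.evt_nonneg a1 ha1p t
    have e2 : 0 ≤ evt t a2 := H74.SW.evt_nonneg a2 ha2p t
    have e3 := H74.SW.evt_nonneg _ h3 t
    have e4 := H74.SW.evt_nonneg _ h4 t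
    have e5 : evt t ((1 - os α) * (a1 * l) - (a1 * q + a2 * l))
        = (∑ x : α, (t x : ℤ)) * (evt t a1 * evt t l) -
          (evt t a1 * evt t q + evt t a2 * evt t l) := by
      rw [← H74.SW.evt_s t]
      unfold evt
      rw [map_sub, map_mul, map_add, map_mul, map_mul, map_mul]
    have e6 : evt t ((1 - os α) * (a1 * q + a2 * l) - a2 * q)
        = (∑ x : α, (t x : ℤ)) * (evt t a1 * evt t q + evt t a2 * evt t l) -
          evt t a2 * evt t q := by
      rw [← H74.SW.evt_s t]
      unfold evt
      rw [map_sub, map_mul, map_add, map_mul, map_mul, map_mul]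
    rw [e5] at e3
    rw [e6] at e4
    have e7 : 0 < ∑ x : α, (t x : ℤ) := by
      have : Nonempty α := by
        rw [← Fintype.card_pos_iff]
        omega
      refine Finset.sum_pos (fun x _ => ?_) Finset.univ_nonempty
      have := ht x
      exact_mod_cast this
    have e8 := hQt t ht
    generalize evt t a1 = A1 at *
    generalize evt t a2 = A2 at *
    generalize evt t l = L at *
    generalize evt t q = Q at *
    generalize (∑ x : α, (t x : ℤ)) = σ at *
    have hLn : 0 ≤ L := by
      by_contra hneg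
      push Not at hneg
      have f1 : A1 = 0 := by
        by_contra hA
        have hA' : 0 < A1 := lt_of_le_of_ne e1 (Ne.symm hA)
        have g1 : σ * (σ * (A1 * L) - (A1 * Q + A2 * L)) + (σ * (A1 * Q + A2 * L) - A2 * Q) =
            σ * σ * (A1 * L) - A2 * Q := by ring
        have g2 : 0 ≤ σ * (σ * (A1 * L) - (A1 * Q + A2 * L)) := mul_nonneg e7.le e3
        have g3 : σ * σ * (A1 * L) < 0 :=
          mul_neg_of_pos_of_neg (mul_pos e7 e7) (mul_neg_of_pos_of_neg hA' hneg)
        have g4 : 0 ≤ A2 * Q := mul_nonneg e2 e8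
        linarith
      have f2 : 0 < A2 := by rw [e0', f1, zero_add] at e0; exact e0
      rw [f1] at e4
      have g5 : A2 * L < 0 := mul_neg_of_pos_of_neg f2 hneg
      have g6 : σ * (A2 * L) < 0 := mul_neg_of_pos_of_neg e7 g5
      have g7 : 0 ≤ A2 * Q := mul_nonneg e2 e8
      have g8 : σ * (0 * Q + A2 * L) = σ * (A2 * L) := by ring
      linarith
    refine ⟨hLn, ?_⟩
    by_cases hA : A1 = 0
    · have f2 : 0 < A2 := by rw [e0', hA, zero_add] at e0; exact e0
      rw [hA] at e3 e4
      have g1 : A2 * L ≤ 0 := by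
        have : σ * (0 * L) - (0 * Q + A2 * L) = -(A2 * L) := by ring
        linarith
      have g2 : L = 0 := by
        by_contra hL0
        have : 0 < A2 * L := mul_pos f2 (lt_of_le_of_ne hLn (Ne.symm hL0))
        linarith
      rw [g2] at e4
      have g3 : A2 * Q ≤ 0 := by
        have : σ * (0 * Q + A2 * 0) - A2 * Q = -(A2 * Q) := by ring
        linarith
      have g4 : Q = 0 := by
        by_contra hQ0
        have : 0 < A2 * Q := mul_pos f2 (lt_of_le_of_ne e8 (Ne.symm hQ0))
        linarith
      rw [g2, g4]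
      simp
    · have hA' : 0 < A1 := lt_of_le_of_ne e1 (Ne.symm hA)
      have g1 : 0 ≤ A2 * L := mul_nonneg e2 hLn
      have g2 : A1 * Q ≤ A1 * (σ * L) := by
        have : A1 * (σ * L) = σ * (A1 * L) := by ring
        linarith
      exact le_of_mul_le_mul_left g2 hA'
  have hl0 : constantCoeff l = 0 := by
    rw [constantCoeff_eq]
    exact hL.coeff_eq_zero (by simp)
  have hlp : ∀ m, 0 ≤ coeff m l :=
    h6 α l (fun t ht => (key t ht).1) (le_of_eq hl0.symm) hL.totalDegree_le
  have hqd : ∀ j, 0 ≤ coeff (Finsupp.single j 2) q := diag q hQ hQt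
  have hq0 : ∀ j, coeff (Finsupp.single j 1) l = 0 → coeff (Finsupp.single j 2) q = 0 := by
    intro j hj
    refine le_antisymm ?_ (hqd j)
    have h7 := diag ((1 - os α) * l - q) ((hS.mul hL).sub hQ) (fun t ht => by
      have h8 := (key t ht).2
      have h9 : evt t ((1 - os α) * l - q) = (∑ x : α, (t x : ℤ)) * evt t l - evt t q := by
        rw [← H74.SW.evt_s t]
        unfold evt
        rw [map_sub, map_mul]
      rw [h9]
      linarith) j
    rw [coeff_sub] at h7
    have h10 : coeff (Finsupp.single j 2) ((1 - os α) * l) = 0 := by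
      rw [mul_comm]
      refine kill l _ (fun x => x ≠ j) ?_ _ ?_
      · intro u hu
        have h11 : u.degree = 1 := by
          by_contra h
          exact hu (hL.coeff_eq_zero h)
        have hne : u ≠ 0 := by
          rintro rfl
          simp at h11
        obtain ⟨x, hx⟩ := Finsupp.support_nonempty_iff.2 hne
        refine ⟨x, hx, ?_⟩
        rintro rfl
        apply hu
        have h12 : u = Finsupp.single x 1 := by
          rcases Pool.Agent.H89.SW.exp_cases u with h | ⟨y, hy⟩ | h
          · exact absurd h hne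
          · rw [hy] at hx ⊢
            have := Finsupp.support_single_subset hx
            rw [Finset.mem_singleton.1 this]
          · exfalso
            have h13 : u.degree = ∑ i ∈ u.support, u i := rfl
            omega
        rw [h12]
        exact hj
      · intro x hx
        have := Finset.mem_singleton.1 (Finsupp.support_single_subset hx)
        simpa using this
    rw [h10] at h7
    linarith
  have hqp : ∀ m, 0 ≤ coeff m q := by
    intro m
    by_cases hm : m.degree = 2
    · obtain ⟨j, k, hjk⟩ := exists_pair hm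
      by_cases hj : coeff (Finsupp.single j 1) l = 0
      · by_cases hne : j = k
        · subst hne
          rw [hjk, ← Finsupp.single_add]
          exact hqd j
        · rw [hjk]
          exact cross q hQ hQt j k hne (hq0 j hj)
      · by_cases hk : coeff (Finsupp.single k 1) l = 0
        · by_cases hne : k = j
          · subst hne
            rw [hjk, ← Finsupp.single_add]
            exact hqd k
          · rw [hjk, add_comm]
            exact cross q hQ hQt k j hne (hq0 k hk)
        · -- both letters in `l`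
          have hbad : ∀ u, coeff u a1 ≠ 0 → ∃ x ∈ u.support, coeff (Finsupp.single x 1) l = 0 := by
            intro u hu
            have h11 : u.degree = 1 := by
              by_contra h
              exact hu (hA1.coeff_eq_zero h)
            rcases Pool.Agent.H89.SW.exp_cases u with h | ⟨y, hy⟩ | h
            · rw [h] at h11
              simp at h11
            · refine ⟨y, by rw [hy]; simp, ?_⟩
              have h12 := hone y
              have h13 : coeff (Finsupp.single y 1) a = coeff (Finsupp.single y 1) a1 := by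
                rw [haa, coeff_add, hA2.coeff_eq_zero (by simp), add_zero]
              have h14 : coeff (Finsupp.single y 1) p = coeff (Finsupp.single y 1) l := by
                rw [hpq, coeff_add, hQ.coeff_eq_zero (by simp), add_zero]
              rw [h13, h14] at h12
              rw [hy] at hu
              have h15 := ha1p (Finsupp.single y 1)
              have h16 := hlp (Finsupp.single y 1)
              omega
            · exfalso
              have h13 : u.degree = ∑ i ∈ u.support, u i := rfl
              omega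
          have hgood : ∀ x ∈ m.support, ¬ coeff (Finsupp.single x 1) l = 0 := by
            intro x hx
            rw [hjk] at hx
            rcases Finset.mem_union.1 (Finsupp.support_add hx) with h | h
            · rw [Finset.mem_singleton.1 (Finsupp.support_single_subset h)]
              exact hj
            · rw [Finset.mem_singleton.1 (Finsupp.support_single_subset h)]
              exact hk
          have hgood' : ∀ x ∈ (m + Finsupp.single j 1).support,
              ¬ coeff (Finsupp.single x 1) l = 0 := by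
            intro x hx
            rcases Finset.mem_union.1 (Finsupp.support_add hx) with h | h
            · exact hgood x h
            · rw [Finset.mem_singleton.1 (Finsupp.support_single_subset h)]
              exact hj
          have h20 := h3 (m + Finsupp.single j 1)
          have h21 : (1 - os α) * (a1 * l) = a1 * ((1 - os α) * l) := by ring
          rw [coeff_sub, coeff_add, h21, kill a1 _ _ hbad _ hgood',
            kill a1 _ _ hbad _ hgood', zero_add] at h20
          have h22 := le_coeff_mul a2 l ha2p hlp m (Finsupp.single j 1)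
          have h23 : 0 < coeff (Finsupp.single j 1) l :=
            lt_of_le_of_ne (hlp _) (Ne.symm hj)
          have h24 : coeff m a2 = 0 := by
            by_contra h
            have : 0 < coeff m a2 * coeff (Finsupp.single j 1) l :=
              mul_pos (lt_of_le_of_ne (ha2p m) (Ne.symm h)) h23
            linarith
          have h25 := h2 m
          rw [coeff_sub, coeff_add, h24, kill a1 _ _ hbad _ hgood] at h25
          linarith
    · rw [hQ.coeff_eq_zero hm]
  intro m
  rw [hpq, coeff_add]
  exact add_nonneg (hlp m) (hqp m)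

end Pool.Agent.H49.S8
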