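import Pool.Agent.H49.SW.Fin
import Pool.Agent.H86.S8.Stm

set_option autoImplicit false

/-!
# The dichotomy with length eight, from the rows
-/

namespace Pool.Agent.H49.S8

open Finset MvPolynomial
open Pool.Agent.H35
open Pool.Agent.H35.FC (IsCode IsPrefixCode Facts Tiles gf SGf STree of_tiles)
open Pool.Agent.H35.FS (SMax)
open Pool.Agent.H72.OF (os os_ne_zero coeff_os)
open Pool.Agent.H86.OG (STil)
open Pool.Agent.H49.SW
open Pool.Agent.H86.S8

/-- The dichotomy. -/
theorem shortG8 (h1 : SRev) (h3 : SGen) (h4 : SDegA) (h5 : SDrop) (h6 : SLin) (h7 : SQuad)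
    (h8 : STwo) (hR : SRev8) (hM : SMain) (hLink : SLink)
    (hTil : STil) (hMax : SMax) (hGf : SGf) (hTree : STree)
    {α : Type} [Fintype α] [DecidableEq α] (C : Finset (List α))
    (hC : IsCode (C : Set (List α)))
    (hmax : ∀ D : Set (List α), IsCode D → (C : Set (List α)) ⊆ D → D = C) :
    (∃ D : Finset (List α), IsPrefixCode (D : Set (List α)) ∧
      ∃ F : List α → List α, Set.BijOn F C D ∧ ∀ w ∈ C, (F w).Perm w) ∨
    ∃ F G : MvPolynomial α ℤ, F ≠ 0 ∧ G ≠ 0 ∧ 1 - gf C = os α * (F * G) ∧
      3 ≤ F.totalDegree ∧ 3 ≤ G.totalDegree ∧ 8 ≤ F.totalDegree + G.totalDegree := by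
  by_cases hk : 2 ≤ Fintype.card α
  · have hcomp := hMax α C hC hmax
    have hne : Nonempty α := by
      rw [← Fintype.card_pos_iff]
      omega
    obtain ⟨S0, P0, N0, hT0, -, -⟩ := hTil α C hC hcomp
    rcases hLink α C S0 P0 N0 hk hC hT0 with ⟨S, P, hSf, hPf, hT⟩ |
      ⟨F, G, a, b, e, e', M, h', hFG, hl1, hl2⟩
    · exact Or.inl (of_tiles hGf hTree C hC S P hSf hPf hT)
    · have h : Pk F G a b e e' M := h'.toPk
      have hfin : NN (F * G) → ∃ D : Finset (List α), IsPrefixCode (D : Set (List α)) ∧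
          ∃ F : List α → List α, Set.BijOn F C D ∧ ∀ w ∈ C, (F w).Perm w :=
        fun hn => hTree α C (F * G) (fun h => hC.1 (by exact_mod_cast h)) hn hFG
      have htil : (∃ S P : Set (List α), S.Finite ∧ P.Finite ∧
          Tiles (C : Set (List α)) S P ∅) → ∃ D : Finset (List α),
          IsPrefixCode (D : Set (List α)) ∧
          ∃ F : List α → List α, Set.BijOn F C D ∧ ∀ w ∈ C, (F w).Perm w := by
        rintro ⟨S, P, hSf, hPf, hT⟩
        exact of_tiles hGf hTree C hC S P hSf hPf hT
      by_cases hF : F.totalDegree ≤ 2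
      · exact Or.inl (hfin (low h1 h3 h4 h5 h6 h7 h hF))
      by_cases hG : G.totalDegree ≤ 2
      · refine Or.inl (hfin ?_)
        rw [mul_comm]
        exact low h1 h3 h4 h5 h6 h7 (h1 α F G a b e e' M h) hG
      by_cases hd : F.totalDegree + G.totalDegree ≤ 6
      · exact Or.inl (hfin (pos h1 h3 h4 h5 h6 h7 h8 α F G a b e e' M h hd))
      by_cases hd7 : F.totalDegree + G.totalDegree ≤ 7
      · left
        by_cases hF3 : F.totalDegree ≤ 3
        · have hG4 : G.totalDegree ≤ 4 := by omega
          rcases hM α F G a b e e' M h' hF3 hG4 with hn | hex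
          · exact hfin hn
          · exact htil (hl1 hF3 hG4 hex)
        · have hG3 : G.totalDegree ≤ 3 := by omega
          have hF4 : F.totalDegree ≤ 4 := by omega
          rcases hM α G F _ _ _ _ _ (hR α F G a b e e' M h') hG3 hF4 with hn | hex
          · refine hfin ?_
            rw [mul_comm]
            exact hn
          · refine htil (hl2 hG3 hF4 ?_)
            obtain ⟨g, f, hg, hg0, hf, hfd⟩ := hex
            exact ⟨f.reverse, g.reverse, hg, hg0, hf, hfd⟩
      · refine Or.inr ⟨F, G, ?_, ?_, hFG, by omega, by omega, by omega⟩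
        · intro h0
          rw [h0, totalDegree_zero] at hF
          omega
        · intro h0
          rw [h0, totalDegree_zero] at hG
          omega
  · left
    have : Subsingleton α := by
      rw [← Fintype.card_le_one_iff_subsingleton]
      omega
    exact ⟨C, prefix_of_subsingleton hC, id, Set.bijOn_id _, fun w _ => List.Perm.refl w⟩

theorem degree_le_any8 {α : Type} [Fintype α] [DecidableEq α] {C : Finset (List α)}
    (h : ∀ w ∈ C, w.length ≤ 8) {F G : MvPolynomial α ℤ} (hF : F ≠ 0) (hG : G ≠ 0)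
    (hC : 1 - gf C = os α * (F * G)) (h3 : 3 ≤ F.totalDegree) :
    F.totalDegree + G.totalDegree ≤ 7 := by
  rcases isEmpty_or_nonempty α with h0 | ⟨⟨y⟩⟩
  · exfalso
    rw [MvPolynomial.eq_C_of_isEmpty F, totalDegree_C] at h3
    omega
  · exact degree_le y (n := 7) h hF hG hC

end Pool.Agent.H49.S8
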