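import Pool.Agent.H49.SW.Pos
import Pool.Agent.H86.S8.Stm

set_option autoImplicit false

/-!
# Words of length at most eight: row R4, one side is zero
-/

namespace Pool.Agent.H49.S8

open Finset MvPolynomial
open Pool.Agent.H35.FC (gf)
open Pool.Agent.H72.OF (os coeff_gf gf_ne_zero coeff_os)
open Pool.Agent.H49.SW
open Pool.Agent.H86.S8

section
variable {α : Type} [Fintype α] [DecidableEq α] {F G : MvPolynomial α ℤ}
  {a b : List α → MvPolynomial α ℤ} {e e' : List α → ℤ} {M : List α → List α → Finset (List α)}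

/-- The linear coefficient of `F (1 - os p)`, `F(0) = 1`, `p(0) = 0`. -/
theorem lin_coeff (x : α) (F p : MvPolynomial α ℤ) (hF : constantCoeff F = 1)
    (hp : constantCoeff p = 0) :
    coeff (Finsupp.single x 1) (F * (1 - os α * p)) =
      coeff (Finsupp.single x 1) F - coeff (Finsupp.single x 1) p := by
  have hmul : ∀ P Q : MvPolynomial α ℤ, coeff (Finsupp.single x 1) (P * Q) =
      constantCoeff P * coeff (Finsupp.single x 1) Q +
        coeff (Finsupp.single x 1) P * constantCoeff Q := by
    intro P Q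
    rw [coeff_mul, Finsupp.antidiagonal_single]
    rw [Finset.sum_map]
    rw [show (Finset.HasAntidiagonal.antidiagonal 1 : Finset (ℕ × ℕ)) = {(0, 1), (1, 0)} from rfl]
    rw [Finset.sum_pair (by decide)]
    simp [constantCoeff_eq]
  have hos : constantCoeff (os α) = 1 := by
    unfold os
    rw [map_sub, map_one, map_sum]
    simp
  have h1 : coeff (Finsupp.single x 1) (1 : MvPolynomial α ℤ) = 0 := by
    rw [coeff_one, if_neg]
    intro h
    have := DFunLike.congr_fun h x
    simp at this
  rw [hmul, hF, map_sub, map_one, map_mul, hos, hp, coeff_sub, hmul, hos, hp, h1]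
  ring

/-- R4 from R1. -/
theorem half8 (h5 : SDrop) (h6 : SLin) (h7 : SQ3) : SHalf := by
  intro α _ _ F G a b e e' M h hF ⟨g, hg, hga⟩ ⟨f, hb⟩
  have hp : Pk F G a b e e' M := h.toPk
  have he : e' f = 1 := by
    have h1 := const_b hp f
    rw [hb, map_zero] at h1
    linarith
  have hG : NN G := by
    intro m
    have h1 := hp.gB f m
    rwa [hb, mul_zero, sub_zero, mul_one] at h1
  have hrec : ∑ x : α, X x * b (x :: f) = F - 1 := by
    rw [hp.recB f, hb, he, C_1]
    ring
  refine NN.mul ?_ hG
  have hF1 : F = 1 + ∑ x : α, X x * b (x :: f) := by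
    rw [hrec]
    ring
  rw [hF1]
  refine NN.one.add (NN.sum fun x _ => (NN.X x).mul ?_)
  have hd2 : (b (x :: f)).totalDegree ≤ 2 :=
    h5 α (fun x => b (x :: f)) (fun x t ht => hp.posB t ht _) 2
      (by rw [hrec]; exact deg_sub_one hF) x
  rcases hp.e01' (x :: f) with h0 | h0
  · have hrec2 : ∑ z : α, X z * b (z :: x :: f) = b (x :: f) - 1 := by
      rw [hp.recB (x :: f), h0, map_zero, zero_mul, add_zero]
    have h1 : b (x :: f) = 1 + ∑ z : α, X z * b (z :: x :: f) := by
      rw [hrec2]
      ring
    rw [h1]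
    exact NN.one.add (NN.sum fun z _ => (NN.X z).mul
      (children h5 h6 hp (by rw [hrec2]; exact deg_sub_one hd2) z))
  · have hag : gf (M g f) = a g := by
      rw [hp.nn g f, hb, mul_zero, mul_zero, sub_zero, add_zero]
    have ha0 : constantCoeff (a g) = 0 := by
      rw [const_a hp, hg]
      norm_num
    have hb0 : constantCoeff (b (x :: f)) = 0 := by
      rw [const_b hp, h0]
      norm_num
    refine h7 α (a g) (b (x :: f)) hp.two ?_ hga ha0 ?_ (fun t ht => hp.posB t ht _) hb0 hd2 ?_ ?_
    · rw [← hag]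
      exact gf_ne_zero (hp.ne g f)
    · rw [← hag]
      exact NN.gf _
    · intro z
      have k1 := hp.gA g (Finsupp.single z 1)
      have k2 := hp.gB (x :: f) (Finsupp.single z 1)
      rw [lin_coeff z F _ hp.F0 ha0] at k1
      rw [lin_coeff z G _ hp.G0 hb0] at k2
      have k3 := h.one z
      linarith
    · rw [← hp.nn g (x :: f)]
      exact NN.gf _

end

end Pool.Agent.H49.S8
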