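import Pool.Agent.H49.S8.All
import Pool.Agent.H72.S8.Link

set_option autoImplicit false

/-!
# The dichotomy for finite maximal codes, words of length at most eight
-/

namespace Pool.Agent.H49.S8

open Finset MvPolynomial
open Pool.Agent.H35.FC (IsCode IsPrefixCode gf)
open Pool.Agent.H72.OF (os)

theorem short {α : Type} [Fintype α] [DecidableEq α] (C : Finset (List α))
    (hC : IsCode (C : Set (List α)))
    (hmax : ∀ D : Set (List α), IsCode D → (C : Set (List α)) ⊆ D → D = C) :
    (∃ D : Finset (List α), IsPrefixCode (D : Set (List α)) ∧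
      ∃ F : List α → List α, Set.BijOn F C D ∧ ∀ w ∈ C, (F w).Perm w) ∨
    ∃ F G : MvPolynomial α ℤ, F ≠ 0 ∧ G ≠ 0 ∧ 1 - gf C = os α * (F * G) ∧
      3 ≤ F.totalDegree ∧ 3 ≤ G.totalDegree ∧ 8 ≤ F.totalDegree + G.totalDegree :=
  short8 H72.S8.sLink C hC hmax

end Pool.Agent.H49.S8
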